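import Pool.Agent.Helper2.SV.GoalsF
import Pool.Agent.Helper2.SV.GoalsP

/-! # SV-S6: a minimal counterexample has no co-1-join -/

set_option autoImplicit false

open Finset

namespace Pool.Agent.Helper53.SV

open Pool.Agent.Helper2.SV

open scoped Classical

/-- a clique of maximum weight inside `X` -/
theorem exists_max {V : Type} [Finite V] (G : SimpleGraph V) (w : V → ℕ) (X : Set V) :
    ∃ K : Finset V, (↑K : Set V) ⊆ X ∧ Clq G ↑K ∧
      ∀ L : Finset V, (↑L : Set V) ⊆ X → Clq G ↑L → ∑ x ∈ L, w x ≤ ∑ x ∈ K, w x := by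
  have h := Set.exists_max_image {K : Finset V | (↑K : Set V) ⊆ X ∧ Clq G ↑K}
    (fun K => ∑ x ∈ K, w x) (Set.toFinite _)
    ⟨∅, by
      refine ⟨?_, ?_⟩
      · rw [Finset.coe_empty]
        exact Set.empty_subset _
      · rw [Finset.coe_empty]
        exact clq_empty G⟩
  obtain ⟨K, hK, hm⟩ := h
  exact ⟨K, hK.1, hK.2, fun L h1 h2 => hm L ⟨h1, h2⟩⟩

/-- the weight changed at a vertex outside `L` -/
theorem sum_upd {V : Type} (w : V → ℕ) (t : V) (d : ℕ) (L : Finset V) (h : t ∉ L) :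
    ∑ x ∈ L, Function.update w t d x = ∑ x ∈ L, w x := by
  refine Finset.sum_congr rfl fun x hx => ?_
  have hne : x ≠ t := fun e => h (by rw [← e]; exact hx)
  exact Function.update_of_ne hne d w

theorem sum_ins {V : Type} (w : V → ℕ) (t : V) (d : ℕ) (L : Finset V) (h : t ∉ L) :
    ∑ x ∈ insert t L, Function.update w t d x = d + ∑ x ∈ L, w x := by
  rw [Finset.sum_insert h, Function.update_self, sum_upd w t d L h]

/-- the maximum weight of a clique with one more vertex -/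
theorem bound {V : Type} (G : SimpleGraph V) (w : V → ℕ) (X : Set V) (t : V) (d o a : ℕ)
    (_ht : t ∉ X)
    (ho : ∀ L : Finset V, (↑L : Set V) ⊆ X → Clq G ↑L → ∑ x ∈ L, w x ≤ o)
    (ha : ∀ L : Finset V, (↑L : Set V) ⊆ X → Clq G ↑L → (∀ x ∈ L, G.Adj t x) →
      ∑ x ∈ L, w x ≤ a)
    (L : Finset V) (hL : (↑L : Set V) ⊆ insert t X) (hc : Clq G ↑L) :
    ∑ x ∈ L, Function.update w t d x ≤ max o (a + d) := by
  by_cases h : t ∈ L
  · have h1 : L = insert t (L.erase t) := (Finset.insert_erase h).symm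
    rw [h1, sum_ins w t d _ (Finset.notMem_erase t L)]
    have h2 : ∑ x ∈ L.erase t, w x ≤ a := by
      apply ha
      · intro x hx
        have hx' := Finset.mem_erase.1 (Finset.mem_coe.1 hx)
        rcases hL (Finset.mem_coe.2 hx'.2) with h3 | h3
        · exact absurd h3 hx'.1
        · exact h3
      · exact hc.mono (by
          intro x hx
          exact Finset.mem_coe.2 (Finset.mem_of_mem_erase (Finset.mem_coe.1 hx)))
      · intro x hx
        have hx' := Finset.mem_erase.1 hx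
        exact hc t (Finset.mem_coe.2 h) x (Finset.mem_coe.2 hx'.2) (Ne.symm hx'.1)
    have h3 := le_max_right o (a + d)
    omega
  · rw [sum_upd w t d L h]
    refine le_trans (ho L ?_ hc) (le_max_left _ _)
    intro x hx
    rcases hL hx with h3 | h3
    · exact absurd (h3 ▸ Finset.mem_coe.1 hx) h
    · exact h3

theorem clq_union {V : Type} {G : SimpleGraph V} {K L : Finset V} (hK : Clq G ↑K)
    (hL : Clq G ↑L) (h : ∀ x ∈ K, ∀ y ∈ L, G.Adj x y) : Clq G (↑(K ∪ L) : Set V) := by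
  intro x hx y hy hxy
  rw [Finset.coe_union] at hx hy
  rcases hx with hx | hx <;> rcases hy with hy | hy
  · exact hK x hx y hy hxy
  · exact h x (Finset.mem_coe.1 hx) y (Finset.mem_coe.1 hy)
  · exact (h y (Finset.mem_coe.1 hy) x (Finset.mem_coe.1 hx)).symm
  · exact hL x hx y hy hxy

theorem goalS6 (hCJ : G_CJ) : G_S6 := by
  intro V _ G w hM V1 F1 F2 t y hJ
  have hyV : y ∈ V1 := hJ.f1 hJ.yF
  have htV : t ∉ V1 := hJ.f2 t hJ.tF
  obtain ⟨M1, hM1s, hM1c, hM1⟩ := exists_max G w V1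
  obtain ⟨N1, hN1s, hN1c, hN1⟩ := exists_max G w (V1 \ F1)
  obtain ⟨M2, hM2s, hM2c, hM2⟩ := exists_max G w V1ᶜ
  obtain ⟨N2, hN2s, hN2c, hN2⟩ := exists_max G w (V1ᶜ \ F2)
  obtain ⟨o1, ho1⟩ : ∃ n, n = ∑ x ∈ M1, w x := ⟨_, rfl⟩
  obtain ⟨a1, ha1⟩ : ∃ n, n = ∑ x ∈ N1, w x := ⟨_, rfl⟩
  obtain ⟨o2, ho2⟩ : ∃ n, n = ∑ x ∈ M2, w x := ⟨_, rfl⟩
  obtain ⟨a2, ha2⟩ : ∃ n, n = ∑ x ∈ N2, w x := ⟨_, rfl⟩
  rw [← ho1] at hM1
  rw [← ha1] at hN1
  rw [← ho2] at hM2
  rw [← ha2] at hN2
  have hao : a1 ≤ o1 := by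
    rw [ha1]
    exact hM1 N1 (hN1s.trans Set.sdiff_subset) hN1c
  have hao2 : a2 ≤ o2 := by
    rw [ha2]
    exact hM2 N2 (hN2s.trans Set.sdiff_subset) hN2c
  have ho1p : 0 < o1 := by
    have h1 := hM1 {y} (by
      rw [Finset.coe_singleton]
      exact Set.singleton_subset_iff.2 hyV) (by
      rw [Finset.coe_singleton]
      exact clq_singleton G y)
    rw [Finset.sum_singleton] at h1
    exact (hM.pos y).trans_le h1
  have ho2p : 0 < o2 := by
    have h1 := hM2 {t} (by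
      rw [Finset.coe_singleton]
      exact Set.singleton_subset_iff.2 htV) (by
      rw [Finset.coe_singleton]
      exact clq_singleton G t)
    rw [Finset.sum_singleton] at h1
    exact (hM.pos t).trans_le h1
  -- the two smaller graphs
  have hS1 : insert t V1 ≠ Set.univ := by
    intro h
    obtain ⟨b, hb, hbt⟩ := hJ.big2
    have h1 : b ∈ insert t V1 := h ▸ Set.mem_univ b
    rcases h1 with h2 | h2
    · exact hbt h2
    · exact hb h2
  have hS2 : insert y V1ᶜ ≠ Set.univ := by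
    intro h
    obtain ⟨b, hb, hby⟩ := hJ.big1
    have h1 : b ∈ insert y V1ᶜ := h ▸ Set.mem_univ b
    rcases h1 with h2 | h2
    · exact hby h2
    · exact h2 hb
  obtain ⟨A1, hA1s, hA1p, hA1⟩ := hM.ih _ hS1 (Function.update w t (o1 - a1))
  obtain ⟨A2, hA2s, hA2p, hA2⟩ := hM.ih _ hS2 (Function.update w y (o1 - a1))
  have hb1 : ∀ L : Finset V, (↑L : Set V) ⊆ insert t V1 → Clq G ↑L →
      ∑ x ∈ L, Function.update w t (o1 - a1) x ≤ o1 := by
    intro L h1 h2
    have h3 := bound G w V1 t (o1 - a1) o1 a1 htV hM1 (by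
      intro L' h4 h5 h6
      refine hN1 L' (fun x hx => ⟨h4 hx, fun hF => ?_⟩) h5
      exact ((hJ.cross x (h4 hx) t htV).1 (h6 x (Finset.mem_coe.1 hx)).symm) ⟨hF, hJ.tF⟩)
      L h1 h2
    have h4 : max o1 (a1 + (o1 - a1)) = o1 := by
      rw [Nat.add_sub_cancel' hao, max_self]
    rwa [h4] at h3
  have hb2 : ∀ L : Finset V, (↑L : Set V) ⊆ insert y V1ᶜ → Clq G ↑L →
      ∑ x ∈ L, Function.update w y (o1 - a1) x ≤ max o2 (a2 + (o1 - a1)) := by
    intro L h1 h2
    exact bound G w V1ᶜ y (o1 - a1) o2 a2 (fun h => h hyV) hM2 (by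
      intro L' h4 h5 h6
      refine hN2 L' (fun x hx => ⟨h4 hx, fun hF => ?_⟩) h5
      exact ((hJ.cross y hyV x (h4 hx)).1 (h6 x (Finset.mem_coe.1 hx))) ⟨hJ.yF, hF⟩)
      L h1 h2
  -- the tight cliques of `G`
  have key : ∀ K : Finset V, TC G w K →
      ((∀ a ∈ K, a ∈ V1 → a ∉ F1) ∧ ∑ x ∈ K.filter (fun x => x ∈ V1), w x = a1 ∧
        ∑ x ∈ K.filter (fun x => x ∉ V1), w x = o2 ∧ a2 + (o1 - a1) ≤ o2) ∨
      ((∀ b ∈ K, b ∉ V1 → b ∉ F2) ∧ ∑ x ∈ K.filter (fun x => x ∈ V1), w x = o1 ∧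
        ∑ x ∈ K.filter (fun x => x ∉ V1), w x = a2 ∧ o2 ≤ a2 + (o1 - a1)) := by
    intro K hK
    obtain ⟨_, hKc, hKm⟩ := hK
    have hsum : ∑ x ∈ K, w x = ∑ x ∈ K.filter (fun x => x ∈ V1), w x +
        ∑ x ∈ K.filter (fun x => x ∉ V1), w x :=
      (Finset.sum_filter_add_sum_filter_not K (fun x => x ∈ V1) w).symm
    have hc1 : Clq G (↑(K.filter (fun x => x ∈ V1)) : Set V) := hKc.mono (by
      intro x hx
      exact Finset.mem_coe.2 (Finset.mem_filter.1 (Finset.mem_coe.1 hx)).1)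
    have hc2 : Clq G (↑(K.filter (fun x => x ∉ V1)) : Set V) := hKc.mono (by
      intro x hx
      exact Finset.mem_coe.2 (Finset.mem_filter.1 (Finset.mem_coe.1 hx)).1)
    have hs1 : (↑(K.filter (fun x => x ∈ V1)) : Set V) ⊆ V1 := fun x hx =>
      (Finset.mem_filter.1 (Finset.mem_coe.1 hx)).2
    have hs2 : (↑(K.filter (fun x => x ∉ V1)) : Set V) ⊆ V1ᶜ := fun x hx =>
      (Finset.mem_filter.1 (Finset.mem_coe.1 hx)).2
    have hW1 : a1 + o2 ≤ ∑ x ∈ K, w x := by
      have h1 := hKm (N1 ∪ M2) (clq_union hN1c hM2c (fun x hx z hz =>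
        (hJ.cross x (hN1s (Finset.mem_coe.2 hx)).1 z (hM2s (Finset.mem_coe.2 hz))).2
          (fun h => (hN1s (Finset.mem_coe.2 hx)).2 h.1)))
      have h2 : Disjoint N1 M2 := by
        rw [Finset.disjoint_left]
        intro x hx hz
        exact (hM2s (Finset.mem_coe.2 hz)) (hN1s (Finset.mem_coe.2 hx)).1
      rw [Finset.sum_union h2, ← ha1, ← ho2] at h1
      exact h1
    have hW2 : o1 + a2 ≤ ∑ x ∈ K, w x := by
      have h1 := hKm (M1 ∪ N2) (clq_union hM1c hN2c (fun x hx z hz =>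
        (hJ.cross x (hM1s (Finset.mem_coe.2 hx)) z (hN2s (Finset.mem_coe.2 hz)).1).2
          (fun h => (hN2s (Finset.mem_coe.2 hz)).2 h.2)))
      have h2 : Disjoint M1 N2 := by
        rw [Finset.disjoint_left]
        intro x hx hz
        exact (hN2s (Finset.mem_coe.2 hz)).1 (hM1s (Finset.mem_coe.2 hx))
      rw [Finset.sum_union h2, ← ho1, ← ha2] at h1
      exact h1
    have hk1 := hM1 _ hs1 hc1
    have hk2 := hM2 _ hs2 hc2
    by_cases htype : ∀ a ∈ K, a ∈ V1 → a ∉ F1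
    · left
      have h1 := hN1 _ (fun x hx => ⟨hs1 hx, htype x
        (Finset.mem_filter.1 (Finset.mem_coe.1 hx)).1 (hs1 hx)⟩) hc1
      exact ⟨htype, by omega, by omega, by omega⟩
    · right
      push Not at htype
      obtain ⟨a, haK, haV, haF⟩ := htype
      have hF2 : ∀ b ∈ K, b ∉ V1 → b ∉ F2 := by
        intro b hbK hbV hbF
        have hab : a ≠ b := fun e => hbV (e ▸ haV)
        exact (hJ.cross a haV b hbV).1 (hKc a (Finset.mem_coe.2 haK) b (Finset.mem_coe.2 hbK) hab)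
          ⟨haF, hbF⟩
      have h1 := hN2 _ (fun x hx => ⟨hs2 hx, hF2 x
        (Finset.mem_filter.1 (Finset.mem_coe.1 hx)).1 (hs2 hx)⟩) hc2
      exact ⟨hF2, by omega, by omega, by omega⟩
  -- tight cliques of the smaller graphs
  have hclK1 : ∀ K : Finset V, TC G w K → Clq G (↑(K.filter (fun x => x ∈ V1)) : Set V) :=
    fun K hK => hK.2.1.mono (by
      intro x hx
      exact Finset.mem_coe.2 (Finset.mem_filter.1 (Finset.mem_coe.1 hx)).1)
  have hclK2 : ∀ K : Finset V, TC G w K → Clq G (↑(K.filter (fun x => x ∉ V1)) : Set V) :=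
    fun K hK => hK.2.1.mono (by
      intro x hx
      exact Finset.mem_coe.2 (Finset.mem_filter.1 (Finset.mem_coe.1 hx)).1)
  have htK : ∀ K : Finset V, t ∉ K.filter (fun x => x ∈ V1) := fun K h =>
    htV (Finset.mem_filter.1 h).2
  have hyK : ∀ K : Finset V, y ∉ K.filter (fun x => x ∉ V1) := fun K h =>
    (Finset.mem_filter.1 h).2 hyV
  -- type 2 in the first graph
  have hit1 : ∀ K : Finset V, TC G w K → ∑ x ∈ K.filter (fun x => x ∈ V1), w x = o1 →
      ∃ x ∈ K, x ∈ V1 ∧ x ∈ A1 := by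
    intro K hK h1
    have h2 := sum_upd w t (o1 - a1) _ (htK K)
    rw [h1] at h2
    obtain ⟨x, hx, hxA⟩ := hA1 (K.filter (fun x => x ∈ V1))
      ⟨fun x hx => Or.inr (Finset.mem_filter.1 (Finset.mem_coe.1 hx)).2, hclK1 K hK, fun L h3 h4 => by
        rw [h2]
        exact hb1 L h3 h4⟩ (by rw [h2]; exact ho1p)
    exact ⟨x, (Finset.mem_filter.1 hx).1, (Finset.mem_filter.1 hx).2, hxA⟩
  -- type 1 in the second graph
  have hit2 : ∀ K : Finset V, TC G w K → ∑ x ∈ K.filter (fun x => x ∉ V1), w x = o2 →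
      a2 + (o1 - a1) ≤ o2 → ∃ x ∈ K, x ∉ V1 ∧ x ∈ A2 := by
    intro K hK h1 h5
    have h2 := sum_upd w y (o1 - a1) _ (hyK K)
    rw [h1] at h2
    obtain ⟨x, hx, hxA⟩ := hA2 (K.filter (fun x => x ∉ V1))
      ⟨fun x hx => Or.inr (Finset.mem_filter.1 (Finset.mem_coe.1 hx)).2, hclK2 K hK, fun L h3 h4 => by
        rw [h2]
        have h6 := hb2 L h3 h4
        rwa [max_eq_left h5] at h6⟩ (by rw [h2]; exact ho2p)
    exact ⟨x, (Finset.mem_filter.1 hx).1, (Finset.mem_filter.1 hx).2, hxA⟩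
  by_cases ht : t ∈ A1
  · by_cases hy : y ∈ A2
    · -- both
      have hsub1 : ∀ a ∈ A1 \ {t}, a ∈ V1 := by
        intro a ha
        rcases hA1s ha.1 with h1 | h1
        · exact absurd h1 ha.2
        · exact h1
      have hsub2 : ∀ b ∈ A2 \ {y}, b ∉ V1 := by
        intro b hb
        rcases hA2s hb.1 with h1 | h1
        · exact absurd h1 hb.2
        · exact h1
      have hperf : Perf G ((A1 \ {t}) ∪ (A2 \ {y})) := by
        refine hCJ V G (A1 \ {t}) (A2 \ {y}) F1 F2 t y ?_ (fun h => h.2 rfl) (fun h => h.2 rfl)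
          (fun a ha b hb => hJ.cross a (hsub1 a ha) b (hsub2 b hb)) ?_ ?_ ?_ ?_
        · rw [Set.disjoint_left]
          exact fun x hx hx' => hsub2 x hx' (hsub1 x hx)
        · intro a ha
          have h1 := hJ.cross a (hsub1 a ha) t htV
          constructor
          · intro h2 h3
            exact h1.1 h2.symm ⟨h3, hJ.tF⟩
          · intro h2
            exact (h1.2 (fun h3 => h2 h3.1)).symm
        · intro b hb
          have h1 := hJ.cross y hyV b (hsub2 b hb)
          constructor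
          · intro h2 h3
            exact h1.1 h2 ⟨hJ.yF, h3⟩
          · intro h2
            exact h1.2 (fun h3 => h2 h3.2)
        · rw [Set.insert_sdiff_singleton, Set.insert_eq_of_mem ht]
          exact hA1p
        · rw [Set.insert_sdiff_singleton, Set.insert_eq_of_mem hy]
          exact hA2p
      obtain ⟨K, hK, hKA⟩ := hM.bad _ hperf
      rcases key K hK with ⟨_, _, h2, h3⟩ | ⟨_, h2, _, _⟩
      · obtain ⟨x, hx, hxV, hxA⟩ := hit2 K hK h2 h3
        exact hKA x hx (Or.inr ⟨hxA, fun e => hxV (by rw [Set.mem_singleton_iff.1 e]; exact hyV)⟩)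
      · obtain ⟨x, hx, hxV, hxA⟩ := hit1 K hK h2
        exact hKA x hx (Or.inl ⟨hxA, fun e => htV (by rw [← Set.mem_singleton_iff.1 e]; exact hxV)⟩)
    · -- `y` is not in `A2`
      obtain ⟨K, hK, hKA⟩ := hM.bad A2 hA2p
      rcases key K hK with ⟨_, _, h2, h3⟩ | ⟨h0, _, h2, h3⟩
      · obtain ⟨x, hx, _, hxA⟩ := hit2 K hK h2 h3
        exact hKA x hx hxA
      · have h4 := sum_ins w y (o1 - a1) _ (hyK K)
        rw [h2, add_comm] at h4
        obtain ⟨x, hx, hxA⟩ := hA2 (insert y (K.filter (fun x => x ∉ V1))) ⟨by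
          intro x hx
          rcases Finset.mem_insert.1 (Finset.mem_coe.1 hx) with h5 | h5
          · exact Or.inl h5
          · exact Or.inr (Finset.mem_filter.1 h5).2, by
          rw [Finset.coe_insert]
          refine (hclK2 K hK).insert fun x hx _ => ?_
          have hx' := Finset.mem_filter.1 (Finset.mem_coe.1 hx)
          exact (hJ.cross y hyV x hx'.2).2 (fun h => h0 x hx'.1 hx'.2 h.2), fun L h5 h6 => by
          rw [h4]
          have h7 := hb2 L h5 h6
          rwa [max_eq_right h3] at h7⟩ (by rw [h4]; omega)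
        rcases Finset.mem_insert.1 hx with h5 | h5
        · exact hy (h5 ▸ hxA)
        · exact hKA x (Finset.mem_filter.1 h5).1 hxA
  · -- `t` is not in `A1`
    obtain ⟨K, hK, hKA⟩ := hM.bad A1 hA1p
    rcases key K hK with ⟨h0, h2, _, _⟩ | ⟨_, h2, _, _⟩
    · have h4 := sum_ins w t (o1 - a1) _ (htK K)
      rw [h2, Nat.sub_add_cancel hao] at h4
      obtain ⟨x, hx, hxA⟩ := hA1 (insert t (K.filter (fun x => x ∈ V1))) ⟨by
        intro x hx
        rcases Finset.mem_insert.1 (Finset.mem_coe.1 hx) with h5 | h5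
        · exact Or.inl h5
        · exact Or.inr (Finset.mem_filter.1 h5).2, by
        rw [Finset.coe_insert]
        refine (hclK1 K hK).insert fun x hx _ => ?_
        have hx' := Finset.mem_filter.1 (Finset.mem_coe.1 hx)
        exact ((hJ.cross x hx'.2 t htV).2 (fun h => h0 x hx'.1 hx'.2 h.1)).symm, fun L h5 h6 => by
        rw [h4]
        exact hb1 L h5 h6⟩ (by rw [h4]; exact ho1p)
      rcases Finset.mem_insert.1 hx with h5 | h5
      · exact ht (h5 ▸ hxA)
      · exact hKA x (Finset.mem_filter.1 h5).1 hxA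
    · obtain ⟨x, hx, _, hxA⟩ := hit1 K hK h2
      exact hKA x hx hxA

end Pool.Agent.Helper53.SV
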